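import Mathlib
import Pool.Agent.V1213.TA.Row
import Pool.Agent.W66.LU

set_option autoImplicit false

/-!
# Decimal repunits and random decimal digits read from the right

For a sequence `d` of decimal digits `d 0, d 1, …` let `N d p` be the integer
`d 0 + 10 d 1 + … + 10 ^ (p - 1) d (p - 1)` whose last `p` decimal digits are the `d i`, that is the
residue modulo `10 ^ p` of the 10-adic integer with the digits `d i`.  If all the digits are `1`, this
is the repunit `R_p`.  Let `W d p` be its `p`-rough part (the product, with multiplicity, of its prime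
factors larger than `p`), which is `R_p` itself for the constant sequence `1` and `p ≠ 3`.  For a set
`S` let `M S d n` be the number of primes `p ≤ n` in `S` with `W d p` prime, and let `V S n` be the sum
of `log p / p` over the primes `p ≤ n` in `S`.

We prove that for almost every sequence `d` (independent uniform digits) with last digit `d 0` equal
to `1`, `3`, `7` or `9` the number of primes `p ≤ n` with `W d p` prime is
`(e ^ γ / log 10) log n + O((log n) ^ (1/2) (log log n) ^ (5/2))`, that for every set `S` and almost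
every such `d` there are infinitely many such primes `p` in `S` if and only if `V S n` is unbounded,
and that in this case `M S d n = (e ^ γ / log 10) V S n + O((V L) ^ (1/2) (log (V L)) ^ 2)` with
`V = V S n` and `L = log log n`; in particular this holds for almost every sequence that begins with
any given number of digits `1`.

In contrast to the starting hand-ins `DecimalDigits` and `FirstDigits`, where the digits of a real
number are read from the left (`N p = ⌊10 N (p - 1)⌋ + d p`), the integers here are nested modulo the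
powers of ten.
-/

namespace Pool.Agent.Results.MP_adea1b_nt.LastDigits

open Filter Topology MeasureTheory Asymptotics

/-- The integer with the decimal digits `d (p - 1) … d 1 d 0`. -/
def N (d : ℕ → Fin 10) (p : ℕ) : ℕ := ∑ i ∈ Finset.range p, (d i : ℕ) * 10 ^ i

/-- The product, with multiplicity, of the prime factors of `m` that are larger than `p`. -/
def roughPart (p m : ℕ) : ℕ := (m.primeFactorsList.filter (fun r => p < r)).prod

/-- The `p`-rough part of the integer with the decimal digits `d (p - 1) … d 1 d 0`. -/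
def W (d : ℕ → Fin 10) (p : ℕ) : ℕ := roughPart p (N d p)

/-- Independent uniform decimal digits. -/
noncomputable def digits : Measure (ℕ → Fin 10) :=
  Measure.infinitePi (fun _ : ℕ => ProbabilityTheory.uniformOn (Set.univ : Set (Fin 10)))

open Classical in
/-- The number of primes `p ≤ n` in the set `S` for which `W d p` is prime. -/
noncomputable def M (S : Set ℕ) (d : ℕ → Fin 10) (n : ℕ) : ℕ :=
  ((Finset.range (n + 1)).filter (fun p => p.Prime ∧ p ∈ S ∧ (W d p).Prime)).card

open Classical in
/-- The sum of `log p / p` over the primes `p ≤ n` in the set `S`. -/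
noncomputable def V (S : Set ℕ) (n : ℕ) : ℝ :=
  ∑ p ∈ (Finset.range (n + 1)).filter (fun p => p.Prime ∧ p ∈ S), Real.log p / p

lemma V_eq (S : Set ℕ) (n : ℕ) : V S n = Pool.Agent.TH888.R.VS S n := by
  classical
  unfold V Pool.Agent.TH888.R.VS
  rw [Finset.sum_filter]
  refine Finset.sum_congr rfl fun p _ => ?_
  by_cases h : p.Prime ∧ p ∈ S
  · rw [if_pos h, if_pos ⟨h.2, h.1⟩]
    rfl
  · rw [if_neg h, if_neg fun h1 => h ⟨h1.2, h1.1⟩]

lemma M_eq (S : Set ℕ) (d : ℕ → Fin 10) (n : ℕ) :
    M S d n = Pool.Agent.TH888.R.cS S (fun p => Pool.Agent.W66L.dsum 10 p d) n := rfl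

lemma N_one (p : ℕ) : N (fun _ => 1) p = ∑ i ∈ Finset.range p, 10 ^ i := by
  unfold N
  refine Finset.sum_congr rfl fun i _ => ?_
  simp

lemma W_one {p : ℕ} (hp : p.Prime) (h3 : p ≠ 3) : W (fun _ => 1) p = ∑ i ∈ Finset.range p, 10 ^ i := by
  unfold W
  rw [N_one]
  refine Pool.Agent.W66L.rough_repunit (b := 10) (by norm_num) hp ?_
  intro h
  have h2 : p ∣ 3 := by
    have : p ∣ 3 ^ 2 := by simpa using h
    exact hp.dvd_of_dvd_pow this
  exact h3 ((Nat.prime_dvd_prime_iff_eq hp Nat.prime_three).1 h2)

lemma pt (S : Set ℕ) : ∀ᵐ d ∂digits, (d 0 : ℕ).Coprime 10 →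
    Pool.Agent.TH888.R.Pt (fun p => Pool.Agent.W66L.dsum 10 p d)
      (Real.exp Real.eulerMascheroniConstant / Real.log 10) S := by
  have h := Pool.Agent.V1213.TA.pt_full (b := 10) (by norm_num) (Pool.Agent.W66L.full_digits 10) S
  filter_upwards [h] with d hd h0
  have h1 : (Pool.Agent.W66L.dsum 10 1 d).Coprime 10 := by
    unfold Pool.Agent.W66L.dsum
    simpa using h0
  have := hd h1
  simpa only [Nat.cast_ofNat] using this

/-- **Main theorem.** -/
theorem result :
    -- the constant sequence `1` gives the repunits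
    (∀ p : ℕ, N (fun _ => 1) p = ∑ i ∈ Finset.range p, 10 ^ i) ∧
    (∀ p : ℕ, p.Prime → p ≠ 3 → W (fun _ => 1) p = ∑ i ∈ Finset.range p, 10 ^ i) ∧
    -- the integers are nested modulo the powers of ten
    (∀ (d : ℕ → Fin 10) (p q : ℕ), p ≤ q → N d p = N d q % 10 ^ p) ∧
    -- the law with error term
    (∀ᵐ d ∂digits, (d 0 : ℕ).Coprime 10 →
      (fun n : ℕ => (M Set.univ d n : ℝ) -
        Real.exp Real.eulerMascheroniConstant / Real.log 10 * Real.log n) =O[atTop]
      (fun n : ℕ => Real.sqrt (Real.log n) * (Real.log (Real.log n)) ^ ((5 : ℝ) / 2))) ∧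
    -- sets of lengths
    (∀ S : Set ℕ, Tendsto (V S) atTop atTop → ∀ᵐ d ∂digits, (d 0 : ℕ).Coprime 10 →
      (fun n : ℕ => (M S d n : ℝ) -
        Real.exp Real.eulerMascheroniConstant / Real.log 10 * V S n) =O[atTop]
      (fun n : ℕ => Real.sqrt (V S n * Real.log (Real.log n)) *
        (Real.log (V S n * Real.log (Real.log n))) ^ 2)) ∧
    (∀ S : Set ℕ, ∀ᵐ d ∂digits, (d 0 : ℕ).Coprime 10 →
      ({p : ℕ | p.Prime ∧ p ∈ S ∧ (W d p).Prime}.Infinite ↔ Tendsto (V S) atTop atTop)) := by
  have hV : ∀ S, V S = Pool.Agent.TH888.R.VS S := fun S => funext fun n => V_eq S n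
  refine ⟨N_one, fun p hp h3 => W_one hp h3, fun d p q hpq => ?_, ?_, fun S hS => ?_, fun S => ?_⟩
  · have key : ∀ k : ℕ, N d (p + k) % 10 ^ p = N d p := by
      intro k
      induction k with
      | zero => exact Nat.mod_eq_of_lt (Pool.Agent.W66L.dsum_lt 10 p d)
      | succ k ih =>
        have h1 : N d (p + (k + 1)) = N d (p + k) + 10 ^ p * ((d (p + k) : ℕ) * 10 ^ k) := by
          unfold N
          rw [← Nat.add_assoc, Finset.sum_range_succ, pow_add]
          ring
        rw [h1, Nat.add_mul_mod_self_left, ih]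
    obtain ⟨k, rfl⟩ := Nat.exists_eq_add_of_le hpq
    exact (key k).symm
  · filter_upwards [pt Set.univ] with d hd h0
    obtain ⟨B, hB, h⟩ := (hd h0).law Pool.Agent.TH888.R.VS_univ_tendsto
    simp only [M_eq]
    exact Pool.Agent.TH888.R.bigO_all hB h
  · rw [hV] at hS ⊢
    filter_upwards [pt S] with d hd h0
    obtain ⟨B, hB, h⟩ := (hd h0).law hS
    simp only [M_eq]
    exact Pool.Agent.TH888.R.bigO_set hB hS h
  · rw [hV]
    filter_upwards [pt S] with d hd h0
    constructor
    · intro hi
      by_contra hn
      exact hi ((hd h0).fin hn)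
    · exact (hd h0).inf

end Pool.Agent.Results.MP_adea1b_nt.LastDigits
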