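import Mathlib
import Pool.Agent.V1193.RU.E

set_option autoImplicit false

/-!
# Repunit primes: the law of the largest length in a set, for a fixed integer base

For an integer base `b ≥ 2` and a real amplitude `β > 0` let `N b β n` be the largest integer below
`β b ^ n` and `W b β n` its `n`-rough part (the product, with multiplicity, of the prime factors
larger than `n`).  At `β = 1 / (b - 1)` the integer `N b β n` is the repunit `1 + b + ... + b ^ (n-1)`,
and so is `W b β n` for the primes `n` that do not divide `b - 1`.  For a set `S` of lengths let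
`E b S β` be the set of the `n ∈ S` with `W b β n` prime.

The base is fixed and only `β` is random.  For every infinite set `S` with `∑ log n / n < ∞` (the sum
over `S`) we find the exact asymptotic law of the largest element of `E b S β` and of the number of
elements after a given one.  Given that `n` is an element, the number of later elements has in the
limit the law of the number of elements of `S` in `(n, n + H]`, where the probability of `H ≥ h` is
`b ^ (-h)`: a block of `H` zeros after the digit `n` of `β` gives the same prime again, and the other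
pairs are negligible.
-/

namespace Pool.Agent.Results.MP_adea1b_nt.LastLength

open Filter Topology MeasureTheory

/-- The product, with multiplicity, of the prime factors of `m` that are larger than `p`. -/
def roughPart (p m : ℕ) : ℕ := (m.primeFactorsList.filter (fun r => p < r)).prod

/-- The largest integer below `β * b ^ n`. -/
noncomputable def N (b : ℕ) (β : ℝ) (n : ℕ) : ℕ := ⌈β * (b : ℝ) ^ n⌉₊ - 1

/-- The `n`-rough part of the largest integer below `β * b ^ n`. -/
noncomputable def W (b : ℕ) (β : ℝ) (n : ℕ) : ℕ := roughPart n (N b β n)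

/-- The elements `n` of `S` with `W b β n` prime. -/
def E (b : ℕ) (S : Set ℕ) (β : ℝ) : Set ℕ := {n | n ∈ S ∧ (W b β n).Prime}

/-- `next S n j` is the `j`-th element of `S` after `n` (and `n` for `j = 0`). -/
noncomputable def next (S : Set ℕ) (n : ℕ) : ℕ → ℕ
  | 0 => n
  | j + 1 => sInf {q | q ∈ S ∧ next S n j < q}

/-- `b ^ (-h)`, where `h` is the distance from `n` to the `j`-th element of `S` after `n`. -/
noncomputable def θ (b : ℕ) (S : Set ℕ) (n j : ℕ) : ℝ := ((b : ℝ) ^ (next S n j - n))⁻¹

/-- The weight `log n / n` on `S`. -/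
noncomputable def w (S : Set ℕ) : ℕ → ℝ := S.indicator fun n : ℕ => Real.log n / n

/-- The sum of the values from `n` on. -/
noncomputable def tail (f : ℕ → ℝ) (n : ℕ) : ℝ := ∑' k : ℕ, f (n + k)

/-- The constant. -/
noncomputable def C (b : ℕ) (u v : ℝ) : ℝ :=
  Real.exp Real.eulerMascheroniConstant * (v - u) / Real.log b

lemma next_eq (S : Set ℕ) (n j : ℕ) : next S n j = Pool.Agent.V1193.RU.nxt S n j := by
  induction j with
  | zero => rfl
  | succ j ih =>
    show sInf {q | q ∈ S ∧ next S n j < q} = sInf {q | q ∈ S ∧ Pool.Agent.V1193.RU.nxt S n j < q}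
    rw [ih]

lemma θ_eq (b : ℕ) (S : Set ℕ) (n j : ℕ) : θ b S n j = Pool.Agent.V1193.RU.θ b S n j := by
  unfold θ Pool.Agent.V1193.RU.θ
  rw [next_eq]

/-- **Main theorem.** -/
theorem result :
    -- the repunits, and the first question
    (∀ b : ℕ, 2 ≤ b → ∀ n : ℕ, N b (1 / ((b : ℝ) - 1)) n = ∑ i ∈ Finset.range n, b ^ i) ∧
    (∀ b : ℕ, 2 ≤ b → ∀ p : ℕ, p.Prime → ¬ p ∣ b - 1 →
      W b (1 / ((b : ℝ) - 1)) p = ∑ i ∈ Finset.range p, b ^ i) ∧
    ({n : ℕ | (∑ i ∈ Finset.range n, 10 ^ i).Prime}.Infinite ↔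
      (E 10 {p | p.Prime} (1 / 9)).Infinite) ∧
    (∀ b : ℕ, 2 ≤ b → ∀ p q : ℕ, p < q →
      N b (1 / ((b : ℝ) - 1)) q ≠ b ^ (q - p) * N b (1 / ((b : ℝ) - 1)) p) ∧
    -- the laws
    (∀ b : ℕ, 2 ≤ b → ∀ S : Set ℕ, S.Infinite → Summable (w S) → ∀ u v : ℝ, u < v →
      -- one element
      Tendsto (fun n : ℕ => volume.real {y ∈ Set.Ioc u v | n ∈ E b S (Real.exp y)} /
        (Real.log n / n)) (atTop ⊓ 𝓟 S) (𝓝 (C b u v)) ∧
      -- the number of later elements
      (∀ j : ℕ, Tendsto (fun n : ℕ => volume.real {y ∈ Set.Ioc u v | n ∈ E b S (Real.exp y) ∧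
        (j : ℕ∞) ≤ (E b S (Real.exp y) ∩ Set.Ioi n).encard} / (Real.log n / n) -
          C b u v * θ b S n j) (atTop ⊓ 𝓟 S) (𝓝 0)) ∧
      -- the largest element
      Tendsto (fun n : ℕ => volume.real {y ∈ Set.Ioc u v | IsGreatest (E b S (Real.exp y)) n} /
        (Real.log n / n * (1 - θ b S n 1))) (atTop ⊓ 𝓟 S) (𝓝 (C b u v)) ∧
      -- the existence of an element from `n` on
      Tendsto (fun n : ℕ => volume.real {y ∈ Set.Ioc u v | ∃ m ∈ E b S (Real.exp y), n ≤ m} /
        tail (fun m => w S m * (1 - θ b S m 1)) n) atTop (𝓝 (C b u v)) ∧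
      -- the mean number of elements from `n` on
      Tendsto (fun n : ℕ => (∫ y in Set.Ioc u v, ((E b S (Real.exp y) ∩ Set.Ici n).ncard : ℝ)) /
        tail (w S) n) atTop (𝓝 (C b u v)) ∧
      -- two elements from `n` on that do not come from a block of zeros
      ∃ K : ℝ, ∀ᶠ n : ℕ in atTop, volume.real {y ∈ Set.Ioc u v | ∃ p ∈ E b S (Real.exp y),
        ∃ q ∈ E b S (Real.exp y), n ≤ p ∧ p < q ∧
          N b (Real.exp y) q ≠ b ^ (q - p) * N b (Real.exp y) p} ≤ K * tail (w S) n ^ 2) := by
  refine ⟨fun b hb n => Pool.Agent.V1193.RU.N_special hb n,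
    fun b hb p hp hpd => Pool.Agent.V1193.RU.rough_special hb hp hpd, ?_, fun b hb p q hpq => ?_,
    fun b hb S hinf hsum u v huv => ?_⟩
  · exact Pool.Agent.V1193.RU.q1
  · have h1 : N b (1 / ((b : ℝ) - 1)) q = _ := Pool.Agent.V1193.RU.N_special hb q
    have h2 : N b (1 / ((b : ℝ) - 1)) p = _ := Pool.Agent.V1193.RU.N_special hb p
    rw [h1, h2]
    exact Pool.Agent.V1193.RU.not_block hb hpq
  · simp only [θ_eq]
    exact Pool.Agent.V1193.RU.laws hb hinf hsum huv

end Pool.Agent.Results.MP_adea1b_nt.LastLength
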