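import Mathlib
import Pool.Agent.V60.XB.Scaled
import Pool.Agent.W66.LU

set_option autoImplicit false

/-!
# The lengths of repunit primes in different bases avoid each other, for almost every amplitude

For an integer `b ≥ 2`, real `β > 0` and a prime `p` let `N b β p = ⌊(β b ^ p - 1) / (b - 1)⌋` and let
`W b β p` be its `p`-rough part (the product, with multiplicity, of its prime factors larger than
`p`).  At `β = 1` both are the repunit `1 + b + ... + b ^ (p - 1)` of length `p` in base `b`, for all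
bases `b` (if `p` does not divide `b - 1`): the decimal repunit `R_p` for `b = 10`, the Mersenne
number `2 ^ p - 1` for `b = 2`.  The lengths of the base `b` are the primes `p` with `W b β p` prime.

We prove that for almost every `β > 0`, simultaneously for all bases `a < b`, a length `p` of the
base `a` and a length `q` of the base `b` satisfy `|q - p| ≥ m / (log m) ^ (1 + ε)`,
`m = min p q`, as soon as `m` is large; in particular two bases have only finitely many common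
lengths.  More generally, let `D` be a set of pairs `(p, q)` for which the sizes of the two numbers
differ, `|p log a - q log b| ≥ c (p + q)`, with a finite sum of `(log p / p) (log q / q)`; then for
almost every `β` only finitely many pairs in `D` consist of a length of `a` and one of `b`.
-/

namespace Pool.Agent.Results.MP_adea1b_nt.OtherBases

open Filter Topology MeasureTheory

/-- The product, with multiplicity, of the prime factors of `m` that are larger than `p`. -/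
def roughPart (p m : ℕ) : ℕ := (m.primeFactorsList.filter (fun r => p < r)).prod

/-- The integer `⌊(β b ^ p - 1) / (b - 1)⌋`. -/
noncomputable def N (b : ℕ) (β : ℝ) (p : ℕ) : ℕ := ⌊(β * (b : ℝ) ^ p - 1) / ((b : ℝ) - 1)⌋₊

/-- The `p`-rough part of `⌊(β b ^ p - 1) / (b - 1)⌋`. -/
noncomputable def W (b : ℕ) (β : ℝ) (p : ℕ) : ℕ := roughPart p (N b β p)

/-- The lengths of the base `b`: the primes `p` with `W b β p` prime. -/
def Length (b : ℕ) (β : ℝ) (p : ℕ) : Prop := p.Prime ∧ (W b β p).Prime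

lemma N_one {b : ℕ} (hb : 2 ≤ b) (p : ℕ) : N b 1 p = ∑ i ∈ Finset.range p, b ^ i := by
  have hb1 : (1 : ℝ) < b := by exact_mod_cast (by omega : 1 < b)
  have h1 : ((∑ i ∈ Finset.range p, b ^ i : ℕ) : ℝ) * ((b : ℝ) - 1) = (b : ℝ) ^ p - 1 := by
    push_cast
    exact geom_sum_mul (b : ℝ) p
  have h2 : (1 * (b : ℝ) ^ p - 1) / ((b : ℝ) - 1) = ((∑ i ∈ Finset.range p, b ^ i : ℕ) : ℝ) := by
    rw [one_mul, ← h1]
    exact mul_div_cancel_right₀ _ (by linarith)
  unfold N
  rw [h2, Nat.floor_natCast]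

lemma W_one {b : ℕ} (hb : 2 ≤ b) {p : ℕ} (hp : p.Prime) (h3 : ¬ p ∣ b - 1) :
    W b 1 p = ∑ i ∈ Finset.range p, b ^ i := by
  unfold W
  rw [N_one hb]
  exact Pool.Agent.W66L.rough_repunit hb hp h3

/-- **Main theorem.** -/
theorem result :
    -- at the amplitude `1` the lengths are the lengths of the repunit primes, for all bases
    (∀ b : ℕ, 2 ≤ b → ∀ p : ℕ, N b 1 p = ∑ i ∈ Finset.range p, b ^ i) ∧
    (∀ b : ℕ, 2 ≤ b → ∀ p : ℕ, ¬ p ∣ b - 1 →
      (Length b 1 p ↔ p.Prime ∧ (∑ i ∈ Finset.range p, b ^ i).Prime)) ∧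
    -- lengths of different bases avoid each other, simultaneously for all bases
    (∀ᵐ β : ℝ, 0 < β → ∀ a b : ℕ, 2 ≤ a → a < b → ∀ ε : ℝ, 0 < ε →
      ∃ P : ℕ, ∀ p q : ℕ, P ≤ p → P ≤ q → Length a β p → Length b β q →
      ((min p q : ℕ) : ℝ) / Real.log ((min p q : ℕ) : ℝ) ^ (1 + ε) ≤ |(q : ℝ) - p|) ∧
    -- two bases have only finitely many common lengths
    (∀ᵐ β : ℝ, 0 < β → ∀ a b : ℕ, 2 ≤ a → a < b → {p | Length a β p ∧ Length b β p}.Finite) ∧
    -- sets of pairs of lengths with separated sizes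
    (∀ (a b : ℕ) (A : ℕ) (c : ℝ) (D : Set (ℕ × ℕ)), 2 ≤ a → 2 ≤ b → 0 < c →
      (∀ z ∈ D, z.2 ≤ A * z.1 ∧ z.1 ≤ A * z.2 ∧
        c * (z.1 + z.2) ≤ |(z.1 : ℝ) * Real.log a - z.2 * Real.log b|) →
      Summable (fun z : D => (Real.log z.1.1 / z.1.1) * (Real.log z.1.2 / z.1.2)) →
      ∀ᵐ β : ℝ, 0 < β → {z | z ∈ D ∧ Length a β z.1 ∧ Length b β z.2}.Finite) := by
  have hg : ∀ (b : ℕ), 2 ≤ b → ∀ p : ℕ,
      |(fun _ : ℕ => -(1 / ((b : ℝ) - 1))) p| ≤ 1 / ((b : ℝ) - 1) * (1 : ℝ) ^ p := by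
    intro b hb p
    have hb1 : (1 : ℝ) < b := by exact_mod_cast (by omega : 1 < b)
    have h1 : (0 : ℝ) < 1 / ((b : ℝ) - 1) := one_div_pos.2 (by linarith)
    simp only
    rw [abs_neg, abs_of_pos h1, one_pow, mul_one]
  have e : ∀ (b : ℕ) (β : ℝ) (m : ℕ),
      ⌊1 / ((b : ℝ) - 1) * β * (b : ℝ) ^ m + (fun _ : ℕ => -(1 / ((b : ℝ) - 1))) m⌋₊ = N b β m := by
    intro b β m
    unfold N
    congr 1
    ring
  have hpos : ∀ b : ℕ, 2 ≤ b → (0 : ℝ) < 1 / ((b : ℝ) - 1) := by
    intro b hb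
    have hb1 : (1 : ℝ) < b := by exact_mod_cast (by omega : 1 < b)
    exact one_div_pos.2 (by linarith)
  have hmain : ∀ᵐ β : ℝ, 0 < β → ∀ a b : ℕ, 2 ≤ a → a < b → ∀ ε : ℝ, 0 < ε →
      ∃ P : ℕ, ∀ p q : ℕ, P ≤ p → P ≤ q → Length a β p → Length b β q →
      ((min p q : ℕ) : ℝ) / Real.log ((min p q : ℕ) : ℝ) ^ (1 + ε) ≤ |(q : ℝ) - p| := by
    have h : ∀ a b : ℕ, ∀ᵐ β : ℝ, 2 ≤ a → a < b → 0 < β → ∀ ε : ℝ, 0 < ε →
        ∃ P : ℕ, ∀ p q : ℕ, P ≤ p → P ≤ q → Length a β p → Length b β q →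
        ((min p q : ℕ) : ℝ) / Real.log ((min p q : ℕ) : ℝ) ^ (1 + ε) ≤ |(q : ℝ) - p| := by
      intro a b
      by_cases hc : 2 ≤ a ∧ a < b
      swap
      · exact Eventually.of_forall fun β h1 h2 => absurd ⟨h1, h2⟩ hc
      obtain ⟨ha, hab⟩ := hc
      have ha1 : (1 : ℝ) < a := by exact_mod_cast (by omega : 1 < a)
      have hb1 : (1 : ℝ) < b := by exact_mod_cast (by omega : 1 < b)
      have hab' : (a : ℝ) < b := by exact_mod_cast hab
      filter_upwards [Pool.Agent.V60.XB.xclose' ha1 hab' zero_le_one ha1 zero_le_one hb1 (hg a ha)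
        (hg b (by omega)) (hpos a ha) (hpos b (by omega))] with β h _ _ hβ ε hε
      obtain ⟨P, hP⟩ := h hβ ε hε
      refine ⟨P, fun p q hp hq hep heq => hP p q hp hq hep.1 heq.1 ?_ ?_⟩
      · rw [e a β p]; exact hep.2
      · rw [e b β q]; exact heq.2
    filter_upwards [ae_all_iff.2 fun a => ae_all_iff.2 (h a)] with β hβ h0 a b ha hab ε hε
    exact hβ a b ha hab h0 ε hε
  refine ⟨fun b hb p => N_one hb p, fun b hb p hpd => ?_, hmain, ?_, ?_⟩
  · unfold Length
    refine and_congr_right fun hp => ?_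
    rw [W_one hb hp hpd]
  · filter_upwards [hmain] with β h hβ a b ha hab
    obtain ⟨P, hP⟩ := h hβ a b ha hab 1 one_pos
    refine (Set.finite_Iio (P + 3)).subset fun p hp => ?_
    rw [Set.mem_Iio]
    by_contra hcon
    rw [not_lt] at hcon
    exact Pool.Agent.V60.XB.no_common (by omega) (hP p p (by omega) (by omega) hp.1 hp.2)
  · intro a b A c D ha hb hc hD hs
    have ha1 : (1 : ℝ) < a := by exact_mod_cast (by omega : 1 < a)
    have hb1 : (1 : ℝ) < b := by exact_mod_cast (by omega : 1 < b)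
    filter_upwards [Pool.Agent.V60.XB.xsets' ha1 hb1 zero_le_one ha1 zero_le_one hb1 (hg a ha)
      (hg b hb) (hpos a ha) (hpos b hb) hc D
      (fun z hz => ⟨(hD z hz).1, (hD z hz).2.1⟩) (fun z hz => (hD z hz).2.2) hs] with β h hβ
    refine (h hβ).subset ?_
    rintro z ⟨hz, h1, h2⟩
    refine ⟨hz, ?_, ?_⟩
    · rw [e a β z.1]; exact h1.2
    · rw [e b β z.2]; exact h2.2

end Pool.Agent.Results.MP_adea1b_nt.OtherBases
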