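import Mathlib
import Pool.Agent.V60.Gap.Main
import Pool.Agent.V60.Gap.Same
import Pool.Agent.W66.LU

set_option autoImplicit false

/-!
# The lengths of almost every decimal expansion have no small multiplicative gaps

For real `β > 0` and a prime `p` let `N β p` be the largest integer below `β * 10 ^ p` and `W β p` its
`p`-rough part (the product, with multiplicity, of its prime factors larger than `p`).  For
`β = 1 / 9` the integer `N β p` is the repunit `R_p`, and so is `W β p` if `p ≠ 3`.  The lengths of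
`β` are the primes `p` with `W β p` prime; their number up to `n` is asymptotic to
`(e ^ γ / log 10) log n` for almost every `β` (`FirstDigits`, starting library).

We prove that for almost every `β` two lengths `p < q` with `q < p + p / (log p) ^ (1 + ε)` come, for
all large `p`, from a block of zeros in the decimal expansion: `N β q = 10 ^ (q - p) * N β p`, hence
`W β q = W β p`, and moreover `10 ^ (q - p) ≤ (log p) ^ (1 + ε)`.  More generally this holds, apart
from finitely many pairs, for the pairs in any set `D` with a finite sum of `(log p / p) ^ 2` over the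
pairs `(p, q)` of `D`.
-/

namespace Pool.Agent.Results.MP_adea1b_nt.SmallGaps

open Filter Topology MeasureTheory

/-- The product, with multiplicity, of the prime factors of `m` that are larger than `p`. -/
def roughPart (p m : ℕ) : ℕ := (m.primeFactorsList.filter (fun r => p < r)).prod

/-- The largest integer below `β * 10 ^ p`. -/
noncomputable def N (β : ℝ) (p : ℕ) : ℕ := ⌈β * 10 ^ p⌉₊ - 1

/-- The `p`-rough part of the largest integer below `β * 10 ^ p`. -/
noncomputable def W (β : ℝ) (p : ℕ) : ℕ := roughPart p (N β p)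

/-- The lengths of `β`: the primes `p` with `W β p` prime. -/
def Length (β : ℝ) (p : ℕ) : Prop := p.Prime ∧ (W β p).Prime

lemma N_ninth (p : ℕ) : N (1 / 9) p = ∑ i ∈ Finset.range p, 10 ^ i := by
  have h1 := Nat.geomSum_eq (m := 10) (by norm_num) p
  have h2 : 9 ∣ 10 ^ p - 1 := by
    have := Nat.sub_dvd_pow_sub_pow 10 1 p
    simpa using this
  have h3 : 1 ≤ 10 ^ p := Nat.one_le_pow _ _ (by norm_num)
  set R := ∑ i ∈ Finset.range p, 10 ^ i with hR
  have hgeo : R * 9 + 1 = 10 ^ p := by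
    rw [h1]
    omega
  have hgeo' : (R : ℝ) * 9 + 1 = 10 ^ p := by exact_mod_cast hgeo
  have h6 : ⌈(1 / 9 : ℝ) * 10 ^ p⌉₊ = R + 1 := by
    rw [Nat.ceil_eq_iff (Nat.succ_ne_zero _), ← hgeo']
    constructor
    · push_cast [Nat.add_sub_cancel]
      linarith
    · push_cast
      linarith
  unfold N
  rw [h6, Nat.add_sub_cancel]

lemma W_ninth {p : ℕ} (hp : p.Prime) (h3 : p ≠ 3) : W (1 / 9) p = ∑ i ∈ Finset.range p, 10 ^ i := by
  unfold W
  rw [N_ninth]
  refine Pool.Agent.W66L.rough_repunit (b := 10) (by norm_num) hp ?_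
  intro h
  have h2 : p ∣ 3 := by
    have : p ∣ 3 ^ 2 := by simpa using h
    exact hp.dvd_of_dvd_pow this
  exact h3 ((Nat.prime_dvd_prime_iff_eq hp Nat.prime_three).1 h2)

/-- **Main theorem.** -/
theorem result :
    -- at the amplitude 1/9 the lengths are the lengths of the repunit primes
    (∀ p : ℕ, N (1 / 9) p = ∑ i ∈ Finset.range p, 10 ^ i) ∧
    (∀ p : ℕ, p ≠ 3 → (Length (1 / 9) p ↔ p.Prime ∧ (∑ i ∈ Finset.range p, 10 ^ i).Prime)) ∧
    (∀ p q : ℕ, 1 ≤ p → p < q → N (1 / 9) q ≠ 10 ^ (q - p) * N (1 / 9) p) ∧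
    -- close lengths
    (∀ᵐ β : ℝ, 0 < β → ∀ ε : ℝ, 0 < ε → ∃ P : ℕ, ∀ p q : ℕ, P ≤ p → p < q →
      Length β p → Length β q →
      (p : ℝ) / Real.log p ^ (1 + ε) ≤ q - p ∨
        (N β q = 10 ^ (q - p) * N β p ∧ W β q = W β p ∧
          (10 : ℝ) ^ (q - p) ≤ Real.log p ^ (1 + ε))) ∧
    -- sets of pairs
    (∀ D : Set (ℕ × ℕ), (∀ z ∈ D, z.1 < z.2 ∧ z.2 ≤ 2 * z.1) →
      Summable (fun z : D => (Real.log z.1.1 / z.1.1) ^ 2) →
      ∀ᵐ β : ℝ, 0 < β →
        {z | z ∈ D ∧ Length β z.1 ∧ Length β z.2 ∧ W β z.1 ≠ W β z.2}.Finite) := by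
  refine ⟨N_ninth, fun p h3 => ?_, fun p q hp hpq => ?_, ?_, fun D hD hs => ?_⟩
  · unfold Length
    refine and_congr_right fun hp => ?_
    rw [W_ninth hp h3]
  · rw [N_ninth, N_ninth]
    intro h
    obtain ⟨m, rfl⟩ : ∃ m, q = m + 1 := ⟨q - 1, by omega⟩
    have h1 : ∑ i ∈ Finset.range (m + 1), 10 ^ i = 10 * (∑ i ∈ Finset.range m, 10 ^ i) + 1 := by
      rw [Finset.sum_range_succ', Finset.mul_sum, pow_zero]
      congr 1
      refine Finset.sum_congr rfl fun i _ => ?_
      rw [pow_succ]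
      ring
    obtain ⟨k, hk⟩ : ∃ k, m + 1 - p = k + 1 := ⟨m - p, by omega⟩
    rw [h1, hk, pow_succ] at h
    have h2 : 10 * (∑ i ∈ Finset.range m, 10 ^ i) + 1 =
        10 * (10 ^ k * ∑ i ∈ Finset.range p, 10 ^ i) := by
      rw [h]
      ring
    generalize (10 ^ k * ∑ i ∈ Finset.range p, 10 ^ i) = y at h2
    generalize (∑ i ∈ Finset.range m, 10 ^ i) = x at h2
    omega
  · have key := Pool.Agent.V60.Gap.spaced_ceil (b := 10) (κ := 0) (C := 0) (g := fun _ => 0)
      (by norm_num) le_rfl (by norm_num) (by intro p; simp)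
    filter_upwards [key] with β h hβ ε hε
    obtain ⟨P, hP⟩ := h hβ ε hε
    refine ⟨P + 10, fun p q hp hpq hep heq => ?_⟩
    rcases le_or_gt ((p : ℝ) / Real.log p ^ (1 + ε)) (q - p) with h1 | h1
    · exact Or.inl h1
    right
    have e : ∀ m : ℕ, (fun p : ℕ => ⌈β * ((10 : ℕ) : ℝ) ^ p + (fun _ => (0 : ℝ)) p⌉₊ - 1) m = N β m := by
      intro m
      unfold N
      simp
    have h2 := hP p q (by omega) hep.1 heq.1 hpq h1 (by rw [e]; exact hep.2) (by rw [e]; exact heq.2)
    rw [e, e] at h2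
    exact ⟨h2.1, Pool.Agent.V60.Gap.same_prime (b := 10) (by norm_num) (by omega) hpq.le h2.1 hep.2
      heq.2, by simpa using h2.2⟩
  · have key := Pool.Agent.V60.Gap.set_ceil (b := 10) (κ := 0) (C := 0) (g := fun _ => 0)
      (by norm_num) le_rfl (by norm_num) (by intro p; simp) D hD hs
    filter_upwards [key] with β h hβ
    have h1 := h hβ
    have e : ∀ m : ℕ, ⌈β * ((10 : ℕ) : ℝ) ^ m + 0⌉₊ - 1 = N β m := by
      intro m
      unfold N
      simp
    simp only [e] at h1
    refine (h1.union (Pool.Agent.V60.Gap.finite_small D hD 10)).subset ?_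
    rintro z ⟨hz, h2, h3, h4⟩
    rcases lt_or_ge z.1 10 with h5 | h5
    · exact Or.inr ⟨hz, h5⟩
    · refine Or.inl ⟨hz, h2.2, h3.2, fun h6 => h4 ?_⟩
      have h7 := (hD z hz).1
      exact (Pool.Agent.V60.Gap.same_prime (b := 10) (by norm_num) (by omega) h7.le h6 h2.2 h3.2).symm

end Pool.Agent.Results.MP_adea1b_nt.SmallGaps
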